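import Pool.Agent.U167.SA.Stm6
import Pool.Agent.U566.SA.EX2

/-!
# Project SA, package REFS: error term of the exact slit strip formula
-/

set_option autoImplicit false

namespace Pool.Agent.U67.SA

open H974 Filter Topology MeasureTheory Finset
open Pool.Agent.U167.SA
open Pool.Agent.H988R2.Perc (Conf OpenAdj perc Arm)
open Pool.Agent.H981R2.TP (rising rising_pos rising_succ ratio_tendsto tipVal)
open Pool.Agent.H981R2.TP.PL

theorem log_up {x y : ℝ} (hx : 0 < x) (hy : 0 < y) : Real.log y - Real.log x ≤ (y - x) / x := by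
  rw [← Real.log_div hy.ne' hx.ne']
  have h := Real.log_le_sub_one_of_pos (div_pos hy hx)
  have e : (y - x) / x = y / x - 1 := by field_simp
  rw [e]; exact h

theorem log_dn {x y : ℝ} (hx : 0 < x) (hy : 0 < y) : (y - x) / y ≤ Real.log y - Real.log x := by
  have h := log_up hy hx
  have e : (y - x) / y = - ((x - y) / y) := by ring
  rw [e]; linarith

/-- logarithm of the normalised ratio of rising factorials -/
noncomputable def lq (s : ℝ) (k : ℕ) : ℝ :=
  Real.log (rising s k) - Real.log (rising (1/2) k) - (s - 1/2) * Real.log k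

theorem lq_diff {s : ℝ} (hs : 0 < s) (k : ℕ) : lq s (k+1) - lq s k =
    (Real.log (s + k) - Real.log (1/2 + k)) - (s - 1/2) * (Real.log (k + 1) - Real.log k) := by
  unfold lq
  have h1 : (0:ℝ) < s + k := by positivity
  have h2 : (0:ℝ) < 1/2 + k := by positivity
  rw [rising_succ, rising_succ, Real.log_mul (rising_pos hs k).ne' h1.ne',
    Real.log_mul (rising_pos (by norm_num) k).ne' h2.ne']
  push_cast
  ring

theorem lq_step13 {k : ℕ} (hk : 1 ≤ k) :
    |lq (1/3) (k+1) - lq (1/3) k| ≤ 1 / (k:ℝ) - 1 / ((k + 1 : ℕ) : ℝ) := by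
  rw [lq_diff (by norm_num)]
  have hK : (1:ℝ) ≤ k := by exact_mod_cast hk
  push_cast
  generalize (k:ℝ) = K at hK
  have a1 := log_up (x := 1/2 + K) (y := 1/3 + K) (by positivity) (by positivity)
  have a2 := log_dn (x := 1/2 + K) (y := 1/3 + K) (by positivity) (by positivity)
  have a3 := log_up (x := K) (y := K + 1) (by positivity) (by positivity)
  have a4 := log_dn (x := K) (y := K + 1) (by positivity) (by positivity)
  have e0 : 1 / K - 1 / (K + 1) = 1 / (K * (K + 1)) := by field_simp; ring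
  have hK0 : 0 < K := by linarith
  rw [e0, abs_le]
  constructor
  · have b1 : (1/3 + K - (1/2 + K)) / (1/3 + K) - (1/3 - 1/2) * ((K + 1 - K) / (K + 1)) =
        - ((1/9) / ((K + 1/3) * (K + 1))) := by field_simp; ring
    have b2 : (1/9) / ((K + 1/3) * (K + 1)) ≤ 1 / (K * (K + 1)) := by
      apply div_le_div₀ (by norm_num) (by norm_num) (by positivity)
      apply mul_le_mul_of_nonneg_right (by linarith) (by positivity)
    linarith
  · have b1 : (1/3 + K - (1/2 + K)) / (1/2 + K) - (1/3 - 1/2) * ((K + 1 - K) / K) =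
        (1/12) / (K * (K + 1/2)) := by field_simp; ring
    have b2 : (1/12) / (K * (K + 1/2)) ≤ 1 / (K * (K + 1)) := by
      rw [div_le_div_iff₀ (by positivity) (by positivity)]
      nlinarith [mul_pos hK0 hK0]
    linarith

theorem lq_step23 {k : ℕ} (hk : 1 ≤ k) :
    |lq (2/3) (k+1) - lq (2/3) k| ≤ 1 / (k:ℝ) - 1 / ((k + 1 : ℕ) : ℝ) := by
  rw [lq_diff (by norm_num)]
  have hK : (1:ℝ) ≤ k := by exact_mod_cast hk
  push_cast
  generalize (k:ℝ) = K at hK
  have a1 := log_up (x := 1/2 + K) (y := 2/3 + K) (by positivity) (by positivity)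
  have a2 := log_dn (x := 1/2 + K) (y := 2/3 + K) (by positivity) (by positivity)
  have a3 := log_up (x := K) (y := K + 1) (by positivity) (by positivity)
  have a4 := log_dn (x := K) (y := K + 1) (by positivity) (by positivity)
  have e0 : 1 / K - 1 / (K + 1) = 1 / (K * (K + 1)) := by field_simp; ring
  have hK0 : 0 < K := by linarith
  rw [e0, abs_le]
  constructor
  · have b1 : (2/3 + K - (1/2 + K)) / (2/3 + K) - (2/3 - 1/2) * ((K + 1 - K) / K) =
        - ((1/9) / (K * (K + 2/3))) := by field_simp; ring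
    have b2 : (1/9) / (K * (K + 2/3)) ≤ 1 / (K * (K + 1)) := by
      rw [div_le_div_iff₀ (by positivity) (by positivity)]
      nlinarith [mul_pos hK0 hK0]
    linarith
  · have b1 : (2/3 + K - (1/2 + K)) / (1/2 + K) - (2/3 - 1/2) * ((K + 1 - K) / (K + 1)) =
        (1/12) / ((K + 1/2) * (K + 1)) := by field_simp; ring
    have b2 : (1/12) / ((K + 1/2) * (K + 1)) ≤ 1 / (K * (K + 1)) := by
      apply div_le_div₀ (by norm_num) (by norm_num) (by positivity)
      apply mul_le_mul_of_nonneg_right (by linarith) (by positivity)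
    linarith

theorem tel {f : ℕ → ℝ} (h : ∀ k, 1 ≤ k → |f (k+1) - f k| ≤ 1 / (k:ℝ) - 1 / ((k + 1 : ℕ) : ℝ))
    {k m : ℕ} (hk : 1 ≤ k) (hm : k ≤ m) : |f m - f k| ≤ 1 / (k:ℝ) - 1 / (m : ℝ) := by
  induction m, hm using Nat.le_induction with
  | base => simp
  | succ m hm ih =>
    have h1 := h m (hk.trans hm)
    have h2 : f (m+1) - f k = (f (m+1) - f m) + (f m - f k) := by ring
    rw [h2]
    refine (abs_add_le _ _).trans ?_
    linarith

theorem lq_exp {s : ℝ} (hs : 0 < s) {k : ℕ} (hk : 1 ≤ k) :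
    Real.exp (lq s k) = rising s k / rising (1/2) k / (k:ℝ)^(s - 1/2) := by
  have hk0 : (0:ℝ) < k := by exact_mod_cast hk
  unfold lq
  rw [Real.exp_sub, Real.exp_sub, Real.exp_log (rising_pos hs k),
    Real.exp_log (rising_pos (by norm_num) k), Real.rpow_def_of_pos hk0, mul_comm (s - 1/2)]

theorem lq_lim {s : ℝ} (hs : 0 < s) : Tendsto (lq s) atTop
    (𝓝 (Real.log (Real.Gamma (1/2) / Real.Gamma s))) := by
  have h1 := ratio_tendsto s hs
  have hg : Real.Gamma (1/2) / Real.Gamma s ≠ 0 :=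
    (div_pos (Real.Gamma_pos_of_pos (by norm_num)) (Real.Gamma_pos_of_pos hs)).ne'
  refine (h1.log hg).congr' ?_
  filter_upwards [eventually_ge_atTop 1] with k hk
  rw [← lq_exp hs hk, Real.log_exp]

theorem lq_rate {s : ℝ} (hs : 0 < s)
    (h : ∀ k, 1 ≤ k → |lq s (k+1) - lq s k| ≤ 1 / (k:ℝ) - 1 / ((k + 1 : ℕ) : ℝ))
    {k : ℕ} (hk : 1 ≤ k) :
    |Real.log (Real.Gamma (1/2) / Real.Gamma s) - lq s k| ≤ 1 / (k:ℝ) := by
  have h1 : Tendsto (fun m => |lq s m - lq s k|) atTop
      (𝓝 |Real.log (Real.Gamma (1/2) / Real.Gamma s) - lq s k|) :=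
    ((lq_lim hs).sub_const _).abs
  refine le_of_tendsto h1 ?_
  filter_upwards [eventually_ge_atTop k] with m hm
  have := tel h hk hm
  have h2 : (0:ℝ) ≤ 1 / m := by positivity
  linarith

/-- the logarithm of the value for odd `p` and even `r` -/
theorem log_tip {p r : ℕ} (hp : 1 ≤ p) (hr : 1 ≤ r) :
    |Real.log (tipVal p r) + (1/6) * (Real.log r + Real.log (p + r) - Real.log p) -
      Real.log (√Real.pi / Real.Gamma (1/3))| ≤ 1 / (p:ℝ) + 1 / (r:ℝ) + 1 / ((p:ℝ) + r) := by
  have p1 := rising_pos (by norm_num : (0:ℝ) < 2/3) p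
  have p2 := rising_pos (by norm_num : (0:ℝ) < 1/3) r
  have p3 := rising_pos (by norm_num : (0:ℝ) < 1/2) (p+r)
  have p4 := rising_pos (by norm_num : (0:ℝ) < 1/2) p
  have p5 := rising_pos (by norm_num : (0:ℝ) < 1/2) r
  have p6 := rising_pos (by norm_num : (0:ℝ) < 2/3) (p+r)
  have g1 : 0 < Real.Gamma (1/2) := Real.Gamma_pos_of_pos (by norm_num)
  have g2 : 0 < Real.Gamma (1/3) := Real.Gamma_pos_of_pos (by norm_num)
  have g3 : 0 < Real.Gamma (2/3) := Real.Gamma_pos_of_pos (by norm_num)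
  have a1 := lq_rate (s := 2/3) (by norm_num) (fun k hk => lq_step23 hk) hp
  have a2 := lq_rate (s := 1/3) (by norm_num) (fun k hk => lq_step13 hk) hr
  have a3 := lq_rate (s := 2/3) (by norm_num) (fun k hk => lq_step23 hk)
    (le_add_right hp : 1 ≤ p + r)
  have e : Real.log (tipVal p r) + (1/6) * (Real.log r + Real.log (p + r) - Real.log p) -
      Real.log (√Real.pi / Real.Gamma (1/3)) =
      -(Real.log (Real.Gamma (1/2) / Real.Gamma (2/3)) - lq (2/3) p) -
      (Real.log (Real.Gamma (1/2) / Real.Gamma (1/3)) - lq (1/3) r) +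
      (Real.log (Real.Gamma (1/2) / Real.Gamma (2/3)) - lq (2/3) (p + r)) := by
    unfold tipVal lq
    rw [Real.log_div (by positivity) (by positivity), Real.log_mul (by positivity) (by positivity),
      Real.log_mul (by positivity) (by positivity), Real.log_mul (by positivity) (by positivity),
      Real.log_mul (by positivity) (by positivity), ← Real.Gamma_one_half_eq,
      Real.log_div g1.ne' g2.ne', Real.log_div g1.ne' g3.ne']
    push_cast
    ring
  rw [e]
  push_cast at a3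
  rw [abs_le] at a1 a2 a3 ⊢
  constructor <;> linarith [a1.1, a1.2, a2.1, a2.2, a3.1, a3.2]

theorem log_near {x y : ℝ} (hx : 1 ≤ x) (hy : 1 ≤ y) (h : |y - x| ≤ 2) (c : ℝ)
    (hc : |y - x| ≤ c) : |Real.log y - Real.log x| ≤ 3 * c / x := by
  have hx0 : 0 < x := by linarith
  have hy0 : 0 < y := by linarith
  have hc0 : 0 ≤ c := (abs_nonneg _).trans hc
  have a1 := log_up hx0 hy0
  have a2 := log_dn hx0 hy0
  rw [abs_le] at h hc ⊢
  have b1 : x ≤ 3 * y := by linarith [h.1]
  constructor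
  · have c1 : - (3 * c / x) ≤ (y - x) / y := by
      rw [neg_le_iff_add_nonneg, div_add_div _ _ hy0.ne' hx0.ne']
      apply div_nonneg _ (by positivity)
      nlinarith [mul_le_mul_of_nonneg_left b1 hc0, hc.1, mul_le_mul_of_nonneg_left hc.1 hx0.le]
    linarith
  · have c1 : (y - x) / x ≤ 3 * c / x := by
      apply div_le_div_of_nonneg_right _ hx0.le
      linarith [hc.2]
    linarith

theorem ffc {p r p' r' m : ℕ} (hm : 1 ≤ m) (hmp : m ≤ p) (hmr : m ≤ r) (hp' : 1 ≤ p')
    (hr' : 1 ≤ r') (hp : |(p' : ℝ) - p| ≤ 1) (hr : |(r' : ℝ) - r| ≤ 1) :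
    |Real.log (tipVal p' r' * ((r : ℝ) * ((p:ℝ) + r) / p)^((1:ℝ)/6)) -
      Real.log (√Real.pi / Real.Gamma (1/3))| ≤ 7 / (m:ℝ) := by
  have m1 : (1:ℝ) ≤ m := by exact_mod_cast hm
  have m2 : (m:ℝ) ≤ p := by exact_mod_cast hmp
  have m3 : (m:ℝ) ≤ r := by exact_mod_cast hmr
  have q1 : (1:ℝ) ≤ p' := by exact_mod_cast hp'
  have q2 : (1:ℝ) ≤ r' := by exact_mod_cast hr'
  have m0 : (0:ℝ) < m := by linarith
  have p0 : (0:ℝ) < p := by linarith
  have r0 : (0:ℝ) < r := by linarith
  have p0' : (0:ℝ) < p' := by linarith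
  have r0' : (0:ℝ) < r' := by linarith
  have tv : 0 < tipVal p' r' := by
    have p1 := rising_pos (by norm_num : (0:ℝ) < 2/3) p'
    have p2 := rising_pos (by norm_num : (0:ℝ) < 1/3) r'
    have p3 := rising_pos (by norm_num : (0:ℝ) < 1/2) (p'+r')
    have p4 := rising_pos (by norm_num : (0:ℝ) < 1/2) p'
    have p5 := rising_pos (by norm_num : (0:ℝ) < 1/2) r'
    have p6 := rising_pos (by norm_num : (0:ℝ) < 2/3) (p'+r')
    unfold tipVal
    positivity
  have e : Real.log (tipVal p' r' * ((r : ℝ) * ((p:ℝ) + r) / p)^((1:ℝ)/6)) =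
      Real.log (tipVal p' r') + (1/6) * (Real.log r + Real.log (p + r) - Real.log p) := by
    rw [Real.log_mul tv.ne' (by positivity), Real.log_rpow (by positivity),
      Real.log_div (by positivity) (by positivity), Real.log_mul (by positivity) (by positivity)]
  rw [e]
  have a := log_tip hp' hr'
  have hpr : |((p':ℝ) + r') - (p + r)| ≤ 2 := by
    rw [abs_le] at hp hr ⊢
    constructor <;> linarith [hp.1, hp.2, hr.1, hr.2]
  have b1 := log_near (x := p) (y := p') (by linarith) q1 (hp.trans (by norm_num)) 1 hp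
  have b2 := log_near (x := r) (y := r') (by linarith) q2 (hr.trans (by norm_num)) 1 hr
  have b3 := log_near (x := p + r) (y := p' + r') (by linarith) (by linarith) hpr 2 hpr
  have c1 : 3 * 1 / (p:ℝ) ≤ 3 / m := by
    rw [mul_one]
    exact div_le_div_of_nonneg_left (by norm_num) m0 m2
  have c2 : 3 * 1 / (r:ℝ) ≤ 3 / m := by
    rw [mul_one]
    exact div_le_div_of_nonneg_left (by norm_num) m0 m3
  have c3 : 3 * 2 / ((p:ℝ) + r) ≤ 3 / m := by
    rw [div_le_div_iff₀ (by positivity) m0]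
    linarith
  have hp1 := (abs_le.mp hp).1
  have hr1 := (abs_le.mp hr).1
  have d1 : 1 / (p':ℝ) ≤ 2 / m := by
    rw [div_le_div_iff₀ p0' m0]
    linarith
  have d2 : 1 / (r':ℝ) ≤ 2 / m := by
    rw [div_le_div_iff₀ r0' m0]
    linarith
  have d3 : 1 / ((p':ℝ) + r') ≤ 1 / m := by
    rw [div_le_div_iff₀ (by positivity) m0]
    linarith
  have t1 : 3 / (m:ℝ) = 3 * (1 / m) := by ring
  have t2 : 2 / (m:ℝ) = 2 * (1 / m) := by ring
  have t3 : 7 / (m:ℝ) = 7 * (1 / m) := by ring
  rw [t1] at c1 c2 c3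
  rw [t2] at d1 d2
  rw [t3]
  have t4 : 0 < 1 / (m:ℝ) := by positivity
  rw [abs_le] at a b1 b2 b3 ⊢
  constructor <;> linarith [a.1, a.2, b1.1, b1.2, b2.1, b2.2, b3.1, b3.2]

theorem tip_pos (p r : ℕ) : 0 < tipVal p r := by
  have p1 := rising_pos (by norm_num : (0:ℝ) < 2/3) p
  have p2 := rising_pos (by norm_num : (0:ℝ) < 1/3) r
  have p3 := rising_pos (by norm_num : (0:ℝ) < 1/2) (p+r)
  have p4 := rising_pos (by norm_num : (0:ℝ) < 1/2) p
  have p5 := rising_pos (by norm_num : (0:ℝ) < 1/2) r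
  have p6 := rising_pos (by norm_num : (0:ℝ) < 2/3) (p+r)
  unfold tipVal
  positivity

theorem near_of_log {v K x : ℝ} (hv : 0 < v) (hK : 0 < K) (h : |Real.log v - Real.log K| ≤ x) :
    K * Real.exp (-x) ≤ v ∧ v ≤ K * Real.exp x := by
  rw [abs_le] at h
  have e1 : K * Real.exp (-x) = Real.exp (Real.log K + (-x)) := by
    rw [Real.exp_add, Real.exp_log hK]
  have e2 : K * Real.exp x = Real.exp (Real.log K + x) := by
    rw [Real.exp_add, Real.exp_log hK]
  rw [e1, e2]
  constructor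
  · calc Real.exp (Real.log K + (-x)) ≤ Real.exp (Real.log v) :=
          Real.exp_le_exp.mpr (by linarith [h.1])
      _ = v := Real.exp_log hv
  · calc v = Real.exp (Real.log v) := (Real.exp_log hv).symm
      _ ≤ Real.exp (Real.log K + x) := Real.exp_le_exp.mpr (by linarith [h.2])

theorem squeeze_exp {v K : ℝ} {m : ℕ} (hm : 1 ≤ m) (hK : 0 < K)
    (h1 : K * Real.exp (-(7 / (m:ℝ))) ≤ v) (h2 : v ≤ K * Real.exp (7 / (m:ℝ))) :
    |v - K| ≤ (K * (7 * Real.exp 7) + K + 2) / m := by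
  have m1 : (1:ℝ) ≤ m := by exact_mod_cast hm
  have m0 : (0:ℝ) < m := by linarith
  have x0 : 0 < 7 / (m:ℝ) := by positivity
  have x7 : 7 / (m:ℝ) ≤ 7 := div_le_self (by norm_num) m1
  have e7 : 7 / (m:ℝ) * m = 7 := by field_simp
  generalize 7 / (m:ℝ) = x at *
  have a1 : 1 - x ≤ Real.exp (-x) := by
    have := Real.add_one_le_exp (-x)
    linarith
  have a2 : Real.exp x ≤ Real.exp 7 := Real.exp_le_exp.mpr x7
  have a3 : Real.exp x - 1 ≤ x * Real.exp 7 := by
    have b1 : Real.exp x * Real.exp (-x) = 1 := by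
      rw [← Real.exp_add]; simp
    have b2 : Real.exp x - 1 ≤ x * Real.exp x := by
      nlinarith [Real.exp_pos x]
    have b3 : x * Real.exp x ≤ x * Real.exp 7 := mul_le_mul_of_nonneg_left a2 x0.le
    linarith
  have a4 : 1 ≤ Real.exp 7 := Real.one_le_exp (by norm_num)
  have c1 : |v - K| ≤ K * (x * Real.exp 7) := by
    rw [abs_le]
    constructor
    · have : K * (1 - x) ≤ v := (mul_le_mul_of_nonneg_left a1 hK.le).trans h1
      have d1 : K * x ≤ K * (x * Real.exp 7) := by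
        apply mul_le_mul_of_nonneg_left _ hK.le
        nlinarith
      linarith
    · have : K * (Real.exp x - 1) ≤ K * (x * Real.exp 7) := mul_le_mul_of_nonneg_left a3 hK.le
      linarith
  rw [le_div_iff₀ m0]
  calc |v - K| * m ≤ K * (x * Real.exp 7) * m := mul_le_mul_of_nonneg_right c1 m0.le
    _ = K * (x * m * Real.exp 7) := by ring
    _ = K * (7 * Real.exp 7) := by rw [e7]
    _ ≤ _ := by linarith

theorem t_REFS (h : PercStm) (_hb : PPBStm) : RefSStm := by
  have hK : 0 < √Real.pi / Real.Gamma (1/3) :=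
    div_pos (Real.sqrt_pos.mpr Real.pi_pos) (Real.Gamma_pos_of_pos (by norm_num))
  refine ⟨√Real.pi / Real.Gamma (1/3) * (7 * Real.exp 7) + √Real.pi / Real.Gamma (1/3) + 2, ?_⟩
  intro p r hp hr
  rw [Pool.Agent.U566.SA.strip_pp h]
  have hm : 1 ≤ min p r := le_min hp hr
  have hmp : min p r ≤ p := min_le_left _ _
  have hmr : min p r ≤ r := min_le_right _ _
  have p0 : (0:ℝ) < p := by exact_mod_cast hp
  have r0 : (0:ℝ) < r := by exact_mod_cast hr
  have f0 : 0 < ((r : ℝ) * ((p:ℝ) + r) / p)^((1:ℝ)/6) := Real.rpow_pos_of_pos (by positivity) _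
  rcases Nat.lt_or_ge r 2 with h2 | h2
  · obtain rfl : r = 1 := by omega
    have e1 : min p 1 = 1 := by omega
    rw [e1]
    have P0 : 0 ≤ perc.real (StripArm p 1) := measureReal_nonneg
    have P1 : perc.real (StripArm p 1) ≤ 1 := measureReal_le_one
    have p1 : (1:ℝ) ≤ p := by exact_mod_cast hp
    have b : (((1:ℕ) : ℝ) * ((p:ℝ) + ((1:ℕ):ℝ)) / p)^((1:ℝ)/6) ≤ 2 := by
      have c1 : ((1:ℕ) : ℝ) * ((p:ℝ) + ((1:ℕ):ℝ)) / p ≤ 2 := by
        rw [div_le_iff₀ p0]
        push_cast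
        linarith
      calc (((1:ℕ) : ℝ) * ((p:ℝ) + ((1:ℕ):ℝ)) / p)^((1:ℝ)/6) ≤ (2:ℝ)^((1:ℝ)/6) :=
            Real.rpow_le_rpow (by positivity) c1 (by norm_num)
        _ ≤ (2:ℝ)^(1:ℝ) := Real.rpow_le_rpow_of_exponent_le (by norm_num) (by norm_num)
        _ = 2 := Real.rpow_one 2
    have c2 : 0 ≤ perc.real (StripArm p 1) * (((1:ℕ) : ℝ) * ((p:ℝ) + ((1:ℕ):ℝ)) / p)^((1:ℝ)/6) :=
      mul_nonneg P0 f0.le
    have c3 : perc.real (StripArm p 1) * (((1:ℕ) : ℝ) * ((p:ℝ) + ((1:ℕ):ℝ)) / p)^((1:ℝ)/6) ≤ 2 := by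
      calc _ ≤ 1 * (2:ℝ) := mul_le_mul P1 b f0.le zero_le_one
        _ = 2 := one_mul 2
    have c4 : 0 < √Real.pi / Real.Gamma (1/3) * (7 * Real.exp 7) := by positivity
    have e2 : ∀ x : ℝ, x / ((1:ℕ) : ℝ) = x := fun x => by rw [Nat.cast_one, div_one]
    rw [e2, abs_le]
    constructor <;> linarith
  · apply squeeze_exp hm hK
    · have a := ffc (p := p) (r := r) (p' := 2*((p + 1)/2) - 1) (r' := 2*((r+1)/2)) hm hmp hmr
        (by omega) (by omega)
        (by
          have e : |(((2*((p + 1)/2) - 1 : ℕ) : ℤ) : ℤ) - (p : ℤ)| ≤ 1 := by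
            rw [abs_le]; omega
          exact_mod_cast e)
        (by
          have e : |(((2*((r + 1)/2) : ℕ) : ℤ) : ℤ) - (r : ℤ)| ≤ 1 := by
            rw [abs_le]; omega
          exact_mod_cast e)
      have b := (near_of_log (mul_pos (tip_pos _ _) f0) hK a).1
      refine b.trans (mul_le_mul_of_nonneg_right ?_ f0.le)
      rw [← strip_exact (p := 2*((p + 1)/2) - 1) (r := 2*((r+1)/2))
        ⟨(p + 1)/2 - 1, by omega⟩ (even_two_mul _) (by omega)]
      exact measureReal_mono ((strip_mono_left (by omega) _).trans (strip_anti_right _ (by omega)))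
    · have a := ffc (p := p) (r := r) (p' := 2*(p/2) + 1) (r' := 2*(r/2)) hm hmp hmr
        (by omega) (by omega)
        (by
          have e : |(((2*(p/2) + 1 : ℕ) : ℤ) : ℤ) - (p : ℤ)| ≤ 1 := by
            rw [abs_le]; omega
          exact_mod_cast e)
        (by
          have e : |(((2*(r/2) : ℕ) : ℤ) : ℤ) - (r : ℤ)| ≤ 1 := by
            rw [abs_le]; omega
          exact_mod_cast e)
      have b := (near_of_log (mul_pos (tip_pos _ _) f0) hK a).2
      refine (mul_le_mul_of_nonneg_right ?_ f0.le).trans b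
      rw [← strip_exact (p := 2*(p/2) + 1) (r := 2*(r/2))
        ⟨p/2, rfl⟩ (even_two_mul _) (by omega)]
      exact measureReal_mono ((strip_mono_left (by omega) _).trans (strip_anti_right _ (by omega)))

end Pool.Agent.U67.SA
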